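import Pool.Agent.Helper5.RO.Goals

/-!
# Project RO, packet GRP: points with coordinates in an algebraically closed subfield
-/

namespace Pool.Agent.Helper45.RO

open WeierstrassCurve
open Pool.Agent.Helper29.BL Pool.Agent.Helper29.GC Pool.Agent.Helper5.RO

theorem gGRP : G_GRP := by
  intro K Ω _ _ _ _ L hL W W' hW
  have ha1 : W'.a₁ ∈ L := by rw [hW]; exact L.algebraMap_mem W.a₁
  have ha2 : W'.a₂ ∈ L := by rw [hW]; exact L.algebraMap_mem W.a₂
  have ha3 : W'.a₃ ∈ L := by rw [hW]; exact L.algebraMap_mem W.a₃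
  have ha4 : W'.a₄ ∈ L := by rw [hW]; exact L.algebraMap_mem W.a₄
  have ha6 : W'.a₆ ∈ L := by rw [hW]; exact L.algebraMap_mem W.a₆
  have hy : ∀ x y : Ω, W'.Equation x y → x ∈ L → y ∈ L := by
    intro x y h hx
    apply hL
    rw [Affine.equation_iff] at h
    let b : L := ⟨W'.a₁ * x + W'.a₃, add_mem (mul_mem ha1 hx) ha3⟩
    let c : L := ⟨x ^ 3 + W'.a₂ * x ^ 2 + W'.a₄ * x + W'.a₆,
      add_mem (add_mem (add_mem (pow_mem hx 3) (mul_mem ha2 (pow_mem hx 2))) (mul_mem ha4 hx)) ha6⟩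
    refine ⟨Polynomial.X ^ 2 + Polynomial.C b * Polynomial.X - Polynomial.C c, ?_, ?_⟩
    · intro h0
      have h1 := congrArg (fun p => Polynomial.coeff p 2) h0
      simp at h1
    · simp only [map_sub, map_add, map_mul, map_pow, Polynomial.aeval_X, Polynomial.aeval_C]
      have e1 : algebraMap L Ω b = W'.a₁ * x + W'.a₃ := rfl
      have e2 : algebraMap L Ω c = x ^ 3 + W'.a₂ * x ^ 2 + W'.a₄ * x + W'.a₆ := rfl
      rw [e1, e2]
      linear_combination h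
  have hnegY : ∀ x y : Ω, x ∈ L → y ∈ L → W'.negY x y ∈ L := by
    intro x y hx hy
    unfold Affine.negY
    exact sub_mem (sub_mem (neg_mem hy) (mul_mem ha1 hx)) ha3
  have hnat : ∀ n : ℕ, (n : Ω) ∈ L := fun n => natCast_mem L n
  have hslope : ∀ x₁ x₂ y₁ y₂ : Ω, x₁ ∈ L → x₂ ∈ L → y₁ ∈ L → y₂ ∈ L →
      W'.slope x₁ x₂ y₁ y₂ ∈ L := by
    intro x₁ x₂ y₁ y₂ h1 h2 h3 h4
    unfold Affine.slope
    split_ifs
    · exact zero_mem L
    · have e2 : (2 : Ω) ∈ L := by exact_mod_cast hnat 2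
      have e3 : (3 : Ω) ∈ L := by exact_mod_cast hnat 3
      exact div_mem (sub_mem (add_mem (add_mem (mul_mem e3 (pow_mem h1 2))
        (mul_mem (mul_mem e2 ha2) h1)) ha4) (mul_mem ha1 h3)) (sub_mem h3 (hnegY _ _ h1 h3))
    · exact div_mem (sub_mem h3 h4) (sub_mem h1 h2)
  have hadd : ∀ P Q : W'.Point, xc P ∈ L → xc Q ∈ L → xc (P + Q) ∈ L := by
    intro P Q hP hQ
    rcases P with _ | ⟨x₁, y₁, h₁⟩
    · have : (Affine.Point.zero : W'.Point) + Q = Q := zero_add Q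
      rw [this]; exact hQ
    rcases Q with _ | ⟨x₂, y₂, h₂⟩
    · have : Affine.Point.some x₁ y₁ h₁ + (Affine.Point.zero : W'.Point) = Affine.Point.some x₁ y₁ h₁ :=
        add_zero _
      rw [this]; exact hP
    have hx1 : x₁ ∈ L := hP
    have hx2 : x₂ ∈ L := hQ
    have hy1 := hy x₁ y₁ h₁.1 hx1
    have hy2 := hy x₂ y₂ h₂.1 hx2
    by_cases hxy : x₁ = x₂ ∧ y₁ = W'.negY x₂ y₂
    · rw [Affine.Point.add_of_Y_eq hxy.1 hxy.2]
      exact zero_mem L
    · rw [Affine.Point.add_some hxy]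
      show W'.addX x₁ x₂ (W'.slope x₁ x₂ y₁ y₂) ∈ L
      unfold Affine.addX
      have hs := hslope x₁ x₂ y₁ y₂ hx1 hx2 hy1 hy2
      exact sub_mem (sub_mem (sub_mem (add_mem (pow_mem hs 2) (mul_mem ha1 hs)) ha2) hx1) hx2
  refine ⟨{ carrier := {P | xc P ∈ L}
            zero_mem' := zero_mem L
            add_mem' := fun {P Q} hP hQ => hadd P Q hP hQ
            neg_mem' := ?_ }, fun P => Iff.rfl⟩
  intro P hP
  rcases P with _ | ⟨x, y, h⟩
  · exact hP
  · exact hP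

end Pool.Agent.Helper45.RO
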