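import Pool.Agent.Helper5.RO.Goals

/-!
# Project RO, packet HEV: basic properties of `hev`
-/

namespace Pool.Agent.Helper45.RO

open WeierstrassCurve Height Height.AdmissibleAbsValues MvPolynomial
open Pool.Agent.Helper29.BL Pool.Agent.Helper29.GC Pool.Agent.Helper5.RO

noncomputable section

theorem hev_sub {R S : Type} [CommRing R] [CommRing S] (φ : R →+* S) {n : ℕ} (D : ℕ)
    (f : MvPolynomial (Fin n) R) (y : Fin n → Fin 2 → S) (T : Finset (Fin n →₀ ℕ))
    (hT : f.support ⊆ T) :
    hev φ D f y = ∑ m ∈ T, φ (coeff m f) * ∏ i, (y i 0 ^ m i * y i 1 ^ (D - m i)) := by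
  unfold hev
  refine Finset.sum_subset hT fun m _ hm => ?_
  rw [notMem_support_iff.mp hm, map_zero, zero_mul]

theorem hev_lc (K S : Type) [Field K] [CommRing S] (φ : K →+* S) (n D : ℕ) (ι : Type) [Fintype ι]
    (f : ι → MvPolynomial (Fin n) K) (μ : ι → K) (y : Fin n → Fin 2 → S) :
    hev φ D (lc f μ) y = ∑ j, φ (μ j) * hev φ D (f j) y := by
  classical
  set T : Finset (Fin n →₀ ℕ) := (lc f μ).support ∪ Finset.univ.biUnion (fun j => (f j).support)
  have h1 : ∀ j, (f j).support ⊆ T := fun j =>
    (Finset.subset_biUnion_of_mem (fun j => (f j).support) (Finset.mem_univ j)).trans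
      Finset.subset_union_right
  rw [hev_sub φ D _ y T Finset.subset_union_left]
  have h2 : ∀ j, φ (μ j) * hev φ D (f j) y
      = ∑ m ∈ T, φ (μ j) * (φ (coeff m (f j)) * ∏ i, (y i 0 ^ m i * y i 1 ^ (D - m i))) := by
    intro j
    rw [hev_sub φ D _ y T (h1 j), Finset.mul_sum]
  simp only [h2]
  rw [Finset.sum_comm]
  refine Finset.sum_congr rfl fun m _ => ?_
  have h3 : coeff m (lc f μ) = ∑ j, μ j * coeff m (f j) := by
    unfold lc
    rw [coeff_sum]
    exact Finset.sum_congr rfl fun j _ => coeff_C_mul _ _ _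
  rw [h3, map_sum, Finset.sum_mul]
  refine Finset.sum_congr rfl fun j _ => ?_
  rw [map_mul, mul_assoc]

theorem deg_le {R : Type} [CommRing R] {n D : ℕ} {f : MvPolynomial (Fin n) R}
    (hf : ∀ i, degreeOf i f ≤ D) {m : Fin n →₀ ℕ} (hm : m ∈ f.support) (i : Fin n) : m i ≤ D := by
  have h5 := hf i
  rw [degreeOf_eq_sup] at h5
  exact (Finset.le_sup (f := fun m : Fin n →₀ ℕ => m i) hm).trans h5

theorem gHEV : G_HEV := by
  refine ⟨hev_lc, ?_, ?_, ?_⟩
  · intro R S _ _ φ n D f κ y hf
    unfold hev
    rw [Finset.mul_sum]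
    refine Finset.sum_congr rfl fun m hm => ?_
    rw [← Finset.prod_pow, mul_left_comm, ← Finset.prod_mul_distrib]
    congr 1
    refine Finset.prod_congr rfl fun i _ => ?_
    have h1 := deg_le hf hm i
    simp only [Pi.smul_apply, smul_eq_mul, mul_pow]
    have h2 : κ i ^ D = κ i ^ m i * κ i ^ (D - m i) := by
      rw [← pow_add]; congr 1; omega
    rw [h2]; ring
  · intro R S _ _ φ n D f x
    unfold hev
    rw [eval₂_eq']
    refine Finset.sum_congr rfl fun m _ => ?_
    congr 1
    refine Finset.prod_congr rfl fun i _ => ?_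
    simp
  · intro K _ _ n D f hf
    classical
    refine ⟨fun v => Real.log (cst v (f.support.card + 1)) +
      ∑ m ∈ f.support, Real.posLog (v (coeff m f)), ?_, ?_, ?_⟩
    · exact (FS_log_cst _).add (FS.sum _ fun m _ => FS_posLog _)
    · intro v
      have h1 : (1 : ℝ) ≤ (f.support.card : ℝ) + 1 := by
        have : (0 : ℝ) ≤ (f.support.card : ℝ) := Nat.cast_nonneg _
        linarith
      exact add_nonneg (Real.log_nonneg (one_le_cst v h1))
        (Finset.sum_nonneg fun _ _ => Real.posLog_nonneg)
    · intro v y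
      have h1 : (1 : ℝ) ≤ (f.support.card : ℝ) + 1 := by
        have : (0 : ℝ) ≤ (f.support.card : ℝ) := Nat.cast_nonneg _
        linarith
      have hM : ∀ i, 0 ≤ max (v (y i 0)) (v (y i 1)) := fun i => (v.nonneg _).trans (le_max_left _ _)
      rw [Real.exp_add, Real.exp_log (cst_pos v h1)]
      unfold hev
      set E := Real.exp (∑ m ∈ f.support, Real.posLog (v (coeff m f))) with hE
      rw [mul_assoc]
      refine abv_sum_le v _ _ ?_ (fun m hm => ?_) (by linarith)
      · exact mul_nonneg (Real.exp_pos _).le (pow_nonneg (Finset.prod_nonneg fun i _ => hM i) _)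
      rw [map_mul]
      refine mul_le_mul ?_ ?_ (v.nonneg _) (Real.exp_pos _).le
      · have h2 : Real.posLog (v (coeff m f)) ≤ ∑ m ∈ f.support, Real.posLog (v (coeff m f)) :=
          Finset.single_le_sum (f := fun m => Real.posLog (v (coeff m f)))
            (fun _ _ => Real.posLog_nonneg) hm
        have h3 : v (coeff m f) ≤ Real.exp (Real.posLog (v (coeff m f))) := by
          rcases eq_or_lt_of_le (v.nonneg (coeff m f)) with h0 | h0
          · rw [← h0]; exact (Real.exp_pos _).le
          · conv_lhs => rw [← Real.exp_log h0]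
            exact Real.exp_le_exp.2 (le_max_right _ _)
        exact h3.trans (Real.exp_le_exp.2 h2)
      · rw [map_prod, ← Finset.prod_pow]
        refine Finset.prod_le_prod (fun i _ => v.nonneg _) fun i _ => ?_
        rw [map_mul, map_pow, map_pow]
        have h4 := deg_le hf hm i
        calc v (y i 0) ^ m i * v (y i 1) ^ (D - m i)
            ≤ (max (v (y i 0)) (v (y i 1))) ^ m i * (max (v (y i 0)) (v (y i 1))) ^ (D - m i) :=
              mul_le_mul (pow_le_pow_left₀ (v.nonneg _) (le_max_left _ _) _)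
                (pow_le_pow_left₀ (v.nonneg _) (le_max_right _ _) _)
                (pow_nonneg (v.nonneg _) _) (pow_nonneg (hM i) _)
          _ = (max (v (y i 0)) (v (y i 1))) ^ D := by
              rw [← pow_add]; congr 1; omega

end

end Pool.Agent.Helper45.RO
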