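import Pool.Agent.Helper46.RO.Base

/-!
# Compactness of the sphere: a uniform pushing property
-/

namespace Pool.Agent.Helper45.RO

open Pool.Agent.Helper46.RO
open scoped Topology

universe u

variable {L : Type u} [Group L]

omit [Group L] in
theorem continuous_chr {n : ℕ} (π : L → Fin n → ℤ) (g : L) :
    Continuous fun w : Fin n → ℝ => chr π w g := by
  unfold chr
  exact continuous_finsetSum _ fun i _ => (continuous_apply i).mul continuous_const

/-- Finitely many continuous functions which are positive at a point have a common positive lower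
bound near this point. -/
theorem eventually_ge {E ι : Type*} [TopologicalSpace E] (I : Finset ι) (g : ι → E → ℝ) (w : E)
    (hc : ∀ i ∈ I, Continuous (g i)) (hpos : ∀ i ∈ I, 0 < g i w) :
    ∃ δ : ℝ, 0 < δ ∧ ∀ᶠ w' in 𝓝 w, ∀ i ∈ I, δ ≤ g i w' := by
  classical
  induction I using Finset.induction_on with
  | empty => exact ⟨1, one_pos, Filter.Eventually.of_forall fun _ i hi => by simp at hi⟩
  | insert a I ha ih =>
    obtain ⟨δ, h0, h1⟩ := ih (fun i hi => hc i (Finset.mem_insert_of_mem hi))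
      (fun i hi => hpos i (Finset.mem_insert_of_mem hi))
    have ha0 := hpos a (Finset.mem_insert_self a I)
    have h2 : ∀ᶠ w' in 𝓝 w, g a w / 2 < g a w' :=
      ((hc a (Finset.mem_insert_self a I)).continuousAt (x := w)).eventually
        (lt_mem_nhds (half_lt_self ha0))
    refine ⟨min δ (g a w / 2), lt_min h0 (half_pos ha0), ?_⟩
    filter_upwards [h1, h2] with w' k1 k2 i hi
    rcases Finset.mem_insert.1 hi with rfl | hi
    · exact (min_le_right _ _).trans k2.le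
    · exact (min_le_left _ _).trans (k1 i hi)

theorem good_mono {n : ℕ} {X : Finset L} {π : L → Fin n → ℤ} {w : Fin n → ℝ} {δ δ' : ℝ}
    {W : L × ℕ × Finset L} (h : Good X π w δ W) (hδ : δ' ≤ δ) : Good X π w δ' W := by
  obtain ⟨h1, h2, h3⟩ := h
  refine ⟨h1, hδ.trans h2, fun x hx => (h3 x hx).mono ?_⟩
  intro k hk
  exact ⟨hk.1, by have := hk.2; linarith⟩

theorem local_good {n : ℕ} {X : Finset L} {π : L → Fin n → ℤ} {w : Fin n → ℝ}
    (h : Margin X (chr π w)) :
    ∃ (W : L × ℕ × Finset L) (δ : ℝ), 0 < δ ∧ ∀ᶠ w' in 𝓝 w, Good X π w' δ W := by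
  classical
  obtain ⟨x₀, hx₀, hp, m, hm⟩ := h
  choose! F hF hcF using fun (x : L) (hx : x ∈ X) => (hm x hx).exists_finset
  obtain ⟨δ₁, hδ₁, he₁⟩ := eventually_ge ({()} : Finset Unit) (fun _ w' => chr π w' x₀) w
    (fun _ _ => continuous_chr π x₀) (fun _ _ => hp)
  obtain ⟨δ₂, hδ₂, he₂⟩ := eventually_ge (X.sigma fun x => F x)
    (fun p w' => chr π w' p.2 - max 0 (chr π w' p.1)) w
    (fun p _ => (continuous_chr π p.2).sub (continuous_const.max (continuous_chr π p.1)))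
    (fun p hp => by
      rw [Finset.mem_sigma] at hp
      have := hF p.1 hp.1 p.2 hp.2
      exact sub_pos.2 this)
  refine ⟨(x₀, m, X.biUnion F), min δ₁ δ₂, lt_min hδ₁ hδ₂, ?_⟩
  filter_upwards [he₁, he₂] with w' k1 k2
  refine ⟨hx₀, (min_le_left _ _).trans (k1 () (by simp)), fun x hx => (hcF x hx).mono ?_⟩
  intro k hk
  have hk' : k ∈ F x := Finset.mem_coe.1 hk
  refine ⟨Finset.mem_biUnion.2 ⟨x, hx, hk'⟩, ?_⟩
  have h3 := k2 ⟨x, k⟩ (Finset.mem_sigma.2 ⟨hx, hk'⟩)
  have h4 : min δ₁ δ₂ ≤ δ₂ := min_le_right _ _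
  simp only at h3
  linarith

theorem isCompact_sphere (n : ℕ) : IsCompact {w : Fin n → ℝ | ∑ i, w i ^ 2 = 1} := by
  refine Metric.isCompact_of_isClosed_isBounded ?_ ?_
  · exact isClosed_eq (continuous_finsetSum _ fun i _ => (continuous_apply i).pow 2)
      continuous_const
  · refine (Metric.isBounded_closedBall (x := (0 : Fin n → ℝ)) (r := 1)).subset ?_
    intro w hw
    rw [mem_closedBall_zero_iff, pi_norm_le_iff_of_nonneg zero_le_one]
    intro i
    have h1 : w i ^ 2 ≤ ∑ i, w i ^ 2 :=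
      Finset.single_le_sum (f := fun i => w i ^ 2) (fun j _ => sq_nonneg _) (Finset.mem_univ i)
    have h2 : ∑ i, w i ^ 2 = 1 := hw
    rw [Real.norm_eq_abs, abs_le_one_iff_mul_self_le_one]
    nlinarith

theorem P1 : GoalP1.{u} := by
  intro L _ X n π _ _ hM
  classical
  have key : ∃ (𝒲 : Finset (L × ℕ × Finset L)) (δ : ℝ), 0 < δ ∧
      ∀ w ∈ {w : Fin n → ℝ | ∑ i, w i ^ 2 = 1}, ∃ W ∈ 𝒲, Good X π w δ W := by
    refine (isCompact_sphere n).induction_on
      (p := fun T => ∃ (𝒲 : Finset (L × ℕ × Finset L)) (δ : ℝ), 0 < δ ∧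
        ∀ w ∈ T, ∃ W ∈ 𝒲, Good X π w δ W) ?_ ?_ ?_ ?_
    · exact ⟨∅, 1, one_pos, fun w hw => by simp at hw⟩
    · rintro s t hst ⟨𝒲, δ, h0, h1⟩
      exact ⟨𝒲, δ, h0, fun w hw => h1 w (hst hw)⟩
    · rintro s t ⟨𝒲, δ, h0, h1⟩ ⟨𝒲', δ', h0', h1'⟩
      refine ⟨𝒲 ∪ 𝒲', min δ δ', lt_min h0 h0', ?_⟩
      rintro w (hw | hw)
      · obtain ⟨W, hW, hg⟩ := h1 w hw
        exact ⟨W, Finset.mem_union_left _ hW, good_mono hg (min_le_left _ _)⟩
      · obtain ⟨W, hW, hg⟩ := h1' w hw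
        exact ⟨W, Finset.mem_union_right _ hW, good_mono hg (min_le_right _ _)⟩
    · intro w hw
      have hw0 : w ≠ 0 := by
        rintro rfl
        have : ∑ i : Fin n, (0 : Fin n → ℝ) i ^ 2 = 1 := hw
        simp at this
      obtain ⟨W, δ, h0, h1⟩ := local_good (hM w hw0)
      refine ⟨{w' | Good X π w' δ W}, mem_nhdsWithin_of_mem_nhds h1, {W}, δ, h0, ?_⟩
      intro w' hw'
      exact ⟨W, Finset.mem_singleton_self W, hw'⟩
  obtain ⟨𝒲, δ, h0, h1⟩ := key
  exact ⟨𝒲, δ, h0, fun w hw => h1 w hw⟩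

end Pool.Agent.Helper45.RO
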